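import Pool.Agent.Helper63.ST.Defs

set_option autoImplicit false

/-! ST-5: automorphisms of elementary abelian groups of finite rank. -/

namespace Pool.Agent.ST

theorem rank_le_of_rankLE {B : Type} [AddCommGroup B] {r : ℕ} (hr : RankLE B r)
    (K : Type) [Field K] [Module K B] : Module.rank K B ≤ r := by
  apply rank_le
  intro s hs
  obtain ⟨t, ht, hts⟩ := hr s
  have h1 : Submodule.span K (s : Set B) ≤ Submodule.span K (t : Set B) := by
    rw [Submodule.span_le]
    intro b hb
    have h2 : b ∈ AddSubgroup.closure (s : Set B) := AddSubgroup.subset_closure hb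
    rw [← hts] at h2
    have h3 : AddSubgroup.closure (t : Set B) ≤ (Submodule.span K (t : Set B)).toAddSubgroup := by
      rw [AddSubgroup.closure_le]
      exact Submodule.subset_span
    exact h3 h2
  have h4 : Module.finrank K (Submodule.span K (s : Set B)) = s.card :=
    finrank_span_finset_eq_card hs
  have h5 : Module.finrank K (Submodule.span K (t : Set B)) ≤ t.card :=
    finrank_span_finset_le_card t
  have h6 : Module.finrank K (Submodule.span K (s : Set B)) ≤
      Module.finrank K (Submodule.span K (t : Set B)) := by
    have : FiniteDimensional K (Submodule.span K (t : Set B)) :=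
      FiniteDimensional.span_finset K t
    exact Submodule.finrank_mono h1
  omega

/-- the reduction to linear groups when all additive maps are linear over a field -/
theorem unip_of_linear {f : ℕ → ℕ} (hf : MalcevBound f) {B : Type} [AddCommGroup B] {r : ℕ}
    (hr : RankLE B r) (K : Type) [Field K] [Module K B]
    (hlin : ∀ (φ : B →+ B) (c : K) (b : B), φ (c • b) = c • φ b) :
    UnipBound f B r := by
  intro G _ _ ρ
  have hrank : Module.rank K B ≤ r := rank_le_of_rankLE hr K
  have hlt : Module.rank K B < Cardinal.aleph0 :=
    lt_of_le_of_lt hrank (Cardinal.natCast_lt_aleph0)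
  have hfd : Module.Finite K B := Module.rank_lt_aleph0_iff.1 hlt
  have hfin : Module.finrank K B ≤ r := Module.finrank_le_of_rank_le hrank
  let ρ' : G →* Module.End K B :=
    { toFun := fun g => { toFun := ρ g
                          map_add' := map_add (ρ g)
                          map_smul' := fun c b => hlin (ρ g) c b }
      map_one' := by
        apply LinearMap.ext
        intro b
        change ρ 1 b = b
        rw [map_one]
        rfl
      map_mul' := by
        intro g g'
        apply LinearMap.ext
        intro b
        change ρ (g * g') b = ρ g (ρ g' b)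
        rw [map_mul]
        rfl }
  obtain ⟨H, h1, h2, h3⟩ := hf r K B G ρ' hfin
  refine ⟨H, h1, h2, ?_⟩
  intro l hl hl'
  have h4 := h3 l hl hl'
  have key : ∀ (l : List G) (b : B), (l.map fun h => ρ' h - 1).prod b = opProd ρ l b := by
    intro l
    induction l with
    | nil =>
      intro b
      rfl
    | cons g l ih =>
      intro b
      have e1 : opProd ρ (g :: l) b = (ρ g - 1) (opProd ρ l b) := by
        simp only [opProd, List.map_cons, List.prod_cons]
        rfl
      rw [e1, ← ih b, List.map_cons, List.prod_cons]
      rfl
  apply AddMonoidHom.ext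
  intro b
  exact (key l b).symm.trans (by rw [h4]; rfl)

/-- ST-5 -/
theorem unip_elementary {f : ℕ → ℕ} (hf : MalcevBound f) {B : Type} [AddCommGroup B] {r : ℕ}
    (hr : RankLE B r) {p : ℕ} (hp : p.Prime) (h : ∀ b : B, p • b = 0) :
    UnipBound f B r := by
  have : Fact p.Prime := ⟨hp⟩
  letI : Module (ZMod p) B := AddCommGroup.zmodModule h
  exact unip_of_linear hf hr (ZMod p) (fun φ c b => ZMod.map_smul φ c b)

end Pool.Agent.ST
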