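import Pool.Agent.Helper63.ST.Defs

set_option autoImplicit false

/-! ST-6b: homomorphisms to the Pruefer group separate the points of a p-group. -/

namespace Pool.Agent.ST

/-- the natural map from `ℚ/ℤ` to `ℚ_p/ℤ_p` -/
noncomputable def circToQpZp (p : ℕ) [Fact p.Prime] : AddCircle (1 : ℚ) →+ QpZp p :=
  QuotientAddGroup.lift (AddSubgroup.zmultiples (1 : ℚ))
    ((Submodule.mkQ (LinearMap.range (Algebra.linearMap ℤ_[p] ℚ_[p]))).toAddMonoidHom.comp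
      (algebraMap ℚ ℚ_[p]).toAddMonoidHom) (by
      intro x hx
      obtain ⟨n, rfl⟩ := AddSubgroup.mem_zmultiples_iff.1 hx
      rw [AddMonoidHom.mem_ker]
      change (Submodule.mkQ (LinearMap.range (Algebra.linearMap ℤ_[p] ℚ_[p])))
        ((algebraMap ℚ ℚ_[p]) (n • (1 : ℚ))) = 0
      rw [Submodule.mkQ_apply, Submodule.Quotient.mk_eq_zero]
      refine ⟨(n : ℤ_[p]), ?_⟩
      simp)

theorem circToQpZp_mk (p : ℕ) [Fact p.Prime] (q : ℚ)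
    (h : circToQpZp p (q : AddCircle (1 : ℚ)) = 0) : ‖((q : ℚ) : ℚ_[p])‖ ≤ 1 := by
  have h1 : (Submodule.mkQ (LinearMap.range (Algebra.linearMap ℤ_[p] ℚ_[p])))
      ((algebraMap ℚ ℚ_[p]) q) = 0 := h
  rw [Submodule.mkQ_apply, Submodule.Quotient.mk_eq_zero] at h1
  obtain ⟨y, hy⟩ := h1
  have h2 : ((q : ℚ) : ℚ_[p]) = (y : ℚ_[p]) := by
    have h3 : (algebraMap ℚ ℚ_[p]) q = ((q : ℚ) : ℚ_[p]) := by simp
    rw [← h3, ← hy]
    rfl
  rw [h2]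
  exact y.2

/-- ST-6b -/
theorem dual_separates {B : Type} [AddCommGroup B] (p : ℕ) [Fact p.Prime]
    (h1 : ∀ b : B, ∃ k : ℕ, p ^ k • b = 0) {b : B} (hb : b ≠ 0) :
    ∃ f : B →+ QpZp p, f b ≠ 0 := by
  obtain ⟨c, hc⟩ := CharacterModule.exists_character_apply_ne_zero_of_ne_zero hb
  let c' : B →+ AddCircle (1 : ℚ) := c
  have hc' : c' b ≠ 0 := hc
  refine ⟨(circToQpZp p).comp c', ?_⟩
  intro h
  obtain ⟨q, hq⟩ := QuotientAddGroup.mk_surjective (c' b)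
  have hq' : ((q : ℚ) : AddCircle (1 : ℚ)) = c' b := hq
  have h2 : circToQpZp p (q : AddCircle (1 : ℚ)) = 0 := by
    rw [hq']
    exact h
  have h3 := circToQpZp_mk p q h2
  obtain ⟨k, hk⟩ := h1 b
  have h4 : p ^ k • (q : AddCircle (1 : ℚ)) = 0 := by
    rw [hq', ← map_nsmul, hk, map_zero]
  have h5 : (((p ^ k : ℕ) • q : ℚ) : AddCircle (1 : ℚ)) = 0 := by
    rw [← h4]
    rfl
  rw [AddCircle.coe_eq_zero_iff] at h5
  obtain ⟨n, hn⟩ := h5
  have hn' : (n : ℚ) = (p : ℚ) ^ k * q := by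
    have := hn
    simp only [zsmul_eq_mul, mul_one, nsmul_eq_mul, Nat.cast_pow] at this
    exact this
  have hn2 : ((n : ℤ) : ℚ_[p]) = (p : ℚ_[p]) ^ k * ((q : ℚ) : ℚ_[p]) := by
    have := congrArg (fun x : ℚ => ((x : ℚ) : ℚ_[p])) hn'
    simpa using this
  have h6 : ‖((n : ℤ) : ℚ_[p])‖ ≤ (p : ℝ) ^ (-k : ℤ) := by
    rw [hn2, norm_mul, norm_pow, Padic.norm_p, zpow_neg, zpow_natCast, inv_pow]
    have hp0 : 0 ≤ ((p : ℝ) ^ k)⁻¹ := by positivity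
    nlinarith
  rw [Padic.norm_int_le_pow_iff_dvd] at h6
  obtain ⟨m, hm⟩ := h6
  have hp : (p : ℚ) ^ k ≠ 0 := pow_ne_zero _ (by exact_mod_cast (Fact.out : p.Prime).ne_zero)
  have h7 : q = (m : ℚ) := by
    have h8 : (p : ℚ) ^ k * q = (p : ℚ) ^ k * m := by
      rw [← hn', hm]
      push_cast
      ring
    exact mul_left_cancel₀ hp h8
  apply hc'
  rw [← hq', h7, AddCircle.coe_eq_zero_iff]
  exact ⟨m, by simp⟩

end Pool.Agent.ST
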